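import Mathlib

namespace Pool.Agent.Results.MP_b8bcd1_lc.Q2

/-- Formulae over sentence letters with negation, conjunction, disjunction and arrow. -/
inductive Fm where
  | var : ℕ → Fm
  | neg : Fm → Fm
  | and : Fm → Fm → Fm
  | or : Fm → Fm → Fm
  | imp : Fm → Fm → Fm
  deriving DecidableEq

/-- A node: its formula, the positions on its branch of the nodes it was obtained from, and,
for a critical node, the position of its partner. -/
structure Node where
  fm : Fm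
  prem : List ℕ
  partner : Option ℕ

/-- A branch lists its nodes from the root (position `0`) downwards. -/
abbrev Branch := List Node

/-- Position `i` of the branch carries the formula `a`. -/
def At (b : Branch) (i : ℕ) (a : Fm) : Prop := ∃ x, b[i]? = some x ∧ x.fm = a

/-- The non-forking rules: the nodes added below the branch `b`. -/
inductive Step (b : Branch) : List Node → Prop
  | conj (i a c) : At b i (.and a c) → Step b [⟨a, [i], none⟩, ⟨c, [i], none⟩]
  | ndisj (i a c) : At b i (.neg (.or a c)) →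
      Step b [⟨.neg a, [i], none⟩, ⟨.neg c, [i], none⟩]
  | dneg (i a) : At b i (.neg (.neg a)) → Step b [⟨a, [i], none⟩]
  | mp (i j a c) : At b i a → At b j (.imp a c) → Step b [⟨c, [i, j], none⟩]
  | counter (i a c) : At b i (.neg (.imp a c)) →
      Step b [⟨a, [i], some (b.length + 1)⟩, ⟨.neg c, [i], some b.length⟩]

/-- The forking rules: the two alternative nodes added below the branch `b`. -/
inductive Fork (b : Branch) : Node → Node → Prop
  | nconj (i a c) : At b i (.neg (.and a c)) →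
      Fork b ⟨.neg a, [i], none⟩ ⟨.neg c, [i], none⟩
  | disj (i a c) : At b i (.or a c) → Fork b ⟨a, [i], none⟩ ⟨c, [i], none⟩

/-- `Grows P b`: the path `b` extends to a finite tree all of whose branches satisfy `P`. -/
inductive Grows (P : Branch → Prop) : Branch → Prop
  | leaf (b) : P b → Grows P b
  | step (b new) : Step b new → Grows P (b ++ new) → Grows P b
  | fork (b x y) : Fork b x y → Grows P (b ++ [x]) → Grows P (b ++ [y]) → Grows P b

/-- `Tr b n k`: position `k` lies in the trace of position `n`. -/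
inductive Tr (b : Branch) (n : ℕ) : ℕ → Prop
  | refl : Tr b n n
  | step (m x k) : Tr b n m → b[m]? = some x → k ∈ x.prem → Tr b n k

/-- `c` is a critical node of `b` with partner `d`. -/
def Crit (b : Branch) (c d : ℕ) : Prop := ∃ x, b[c]? = some x ∧ x.partner = some d

/-- The branch has a crash-pair with parity. -/
def Parity (b : Branch) : Prop :=
  ∃ i j z, At b i z ∧ At b j (.neg z) ∧
    ∀ c d, Crit b c d → ((Tr b i c ∨ Tr b j c) ↔ (Tr b i d ∨ Tr b j d))

/-- The branch has a crash-pair with strengthened parity. -/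
def StrongParity (b : Branch) : Prop :=
  ∃ i j z, At b i z ∧ At b j (.neg z) ∧
    ∀ c d, Crit b c d → ((Tr b i c ∨ Tr b j c) ∧ (Tr b i d ∨ Tr b j d))

/-- Directly acceptable formulae. -/
def DA : Set Fm := {φ | Grows Parity [⟨.neg φ, [], none⟩]}

/-- Formulae with a truth-tree satisfying strengthened parity. -/
def DAs : Set Fm := {φ | Grows StrongParity [⟨.neg φ, [], none⟩]}

open Fm

def p : Fm := var 0
def q : Fm := var 1
def r : Fm := var 2
def s : Fm := var 3
def fA : Fm := imp (.or p r) p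
def fB : Fm := imp (.or q s) q
def fM : Fm := imp r (imp (neg p) (imp s q))
/-- `((p ∨ r) → p) ∨ (((q ∨ s) → q) ∨ ¬(r → (¬p → (s → q))))` -/
def phi : Fm := .or fA (.or fB (neg fM))

def S0 : List Fm := [neg phi, neg fA, neg (.or fB (neg fM)), neg fB, neg (neg fM), fM,
  .or p r, neg p, .or q s, neg q]
def SX : List Fm := S0 ++ [r, q, imp (neg p) (imp s q), imp s q]
def SY : List Fm := S0 ++ [p, s]
def DX : List Fm := [q, .or q s, neg q, neg fB, neg (.or fB (neg fM)), neg phi]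
def DY : List Fm := [p, .or p r, neg p, neg fA, neg phi]

def Inv (S D : List Fm) (b : Branch) : Prop :=
  ∀ x ∈ b, x.fm ∈ S ∧ ((x.fm = .or p r ∨ x.fm = .or q s) → x.partner ≠ none) ∧
    (x.fm ∈ D → ∀ k ∈ x.prem, ∃ a ∈ D, At b k a)

lemma At.app {b : Branch} {i : ℕ} {a : Fm} (h : At b i a) (new : List Node) :
    At (b ++ new) i a := by
  obtain ⟨x, hx, e⟩ := h
  have hi : i < b.length := by
    by_contra hn
    rw [List.getElem?_eq_none (by omega)] at hx
    simp at hx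
  exact ⟨x, by rw [List.getElem?_append_left hi, hx], e⟩

lemma At.uniq {b : Branch} {i : ℕ} {a c : Fm} (h : At b i a) (h' : At b i c) : a = c := by
  obtain ⟨x, hx, e⟩ := h
  obtain ⟨y, hy, e'⟩ := h'
  rw [hx] at hy
  rw [← e, ← e', Option.some.inj hy]

lemma At.mem {S D : List Fm} {b : Branch} (hb : Inv S D b) {i : ℕ} {a : Fm} (h : At b i a) :
    a ∈ S := by
  obtain ⟨x, hx, e⟩ := h
  exact e ▸ (hb x (List.mem_of_getElem? hx)).1

lemma Inv.app {S D : List Fm} {b : Branch} (hb : Inv S D b) (new : List Node)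
    (h : ∀ x ∈ new, x.fm ∈ S ∧ ((x.fm = .or p r ∨ x.fm = .or q s) → x.partner ≠ none) ∧
      (x.fm ∈ D → ∀ k ∈ x.prem, ∃ a ∈ D, At b k a)) : Inv S D (b ++ new) := by
  intro x hx
  rcases List.mem_append.1 hx with hx | hx
  · obtain ⟨h1, h2, h3⟩ := hb x hx
    refine ⟨h1, h2, fun hD k hk => ?_⟩
    obtain ⟨a, ha, hk⟩ := h3 hD k hk
    exact ⟨a, ha, hk.app _⟩
  · obtain ⟨h1, h2, h3⟩ := h x hx
    refine ⟨h1, h2, fun hD k hk => ?_⟩
    obtain ⟨a, ha, hk⟩ := h3 hD k hk
    exact ⟨a, ha, hk.app _⟩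

lemma Inv.mono {S S' D : List Fm} {b : Branch} (hb : Inv S D b) (h : ∀ a ∈ S, a ∈ S') :
    Inv S' D b := fun x hx => ⟨h _ (hb x hx).1, (hb x hx).2⟩

lemma tr_D {S D : List Fm} {b : Branch} (hb : Inv S D b) {n k : ℕ} (h : Tr b n k)
    (hn : ∃ a ∈ D, At b n a) : ∃ a ∈ D, At b k a := by
  induction h with
  | refl => exact hn
  | step m x k _ hx hk ih =>
    obtain ⟨a, ha, hm⟩ := ih
    have : x.fm = a := At.uniq ⟨x, hx, rfl⟩ hm
    exact (hb x (List.mem_of_getElem? hx)).2.2 (this ▸ ha) k hk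

/-- closure data of the pair `(S, D)` under the non-forking rules -/
def Closed (S D : List Fm) : Prop :=
  (∀ a c, Fm.and a c ∉ S) ∧
  (∀ a c, neg (.or a c) ∈ S → neg a ∈ S ∧ neg c ∈ S ∧
    ((neg a ∈ D ∨ neg c ∈ D) → neg (.or a c) ∈ D)) ∧
  (∀ a, neg (neg a) ∈ S → a = fM) ∧ fM ∈ S ∧ fM ∉ D ∧
  (∀ a c, a ∈ S → imp a c ∈ S → c ∈ S ∧ c ∉ D ∧ c ≠ .or p r ∧ c ≠ .or q s) ∧
  (∀ a c, neg (imp a c) ∈ S → a ∈ S ∧ neg c ∈ S ∧ ((a ∈ D ∨ neg c ∈ D) → neg (imp a c) ∈ D))

lemma step_inv {S D : List Fm} (hc : Closed S D) {b : Branch} (hb : Inv S D b) {new : List Node}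
    (h : Step b new) : Inv S D (b ++ new) := by
  obtain ⟨c1, c2, c3, c4, c5, c6, c7⟩ := hc
  apply hb.app
  cases h with
  | conj i a c h => exact absurd (h.mem hb) (c1 a c)
  | ndisj i a c h =>
    obtain ⟨h1, h2, h3⟩ := c2 a c (h.mem hb)
    intro x hx
    simp only [List.mem_cons, List.not_mem_nil, or_false] at hx
    rcases hx with rfl | rfl
    · exact ⟨h1, by simp, fun hD k hk => ⟨_, h3 (Or.inl hD), by simp at hk; rwa [hk]⟩⟩
    · exact ⟨h2, by simp, fun hD k hk => ⟨_, h3 (Or.inr hD), by simp at hk; rwa [hk]⟩⟩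
  | dneg i a h =>
    have := c3 a (h.mem hb)
    subst this
    intro x hx
    simp only [List.mem_cons, List.not_mem_nil, or_false] at hx
    subst hx
    exact ⟨c4, by simp [fM], fun hD => absurd hD c5⟩
  | mp i j a c h h' =>
    obtain ⟨h1, h2, h3, h4⟩ := c6 a c (h.mem hb) (h'.mem hb)
    intro x hx
    simp only [List.mem_cons, List.not_mem_nil, or_false] at hx
    subst hx
    exact ⟨h1, by simp [h3, h4], fun hD => absurd hD h2⟩
  | counter i a c h =>
    obtain ⟨h1, h2, h3⟩ := c7 a c (h.mem hb)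
    intro x hx
    simp only [List.mem_cons, List.not_mem_nil, or_false] at hx
    rcases hx with rfl | rfl
    · exact ⟨h1, by simp, fun hD k hk => ⟨_, h3 (Or.inl hD), by simp at hk; rwa [hk]⟩⟩
    · exact ⟨h2, by simp, fun hD k hk => ⟨_, h3 (Or.inr hD), by simp at hk; rwa [hk]⟩⟩

lemma closed_of (S D : List Fm) (h1 : ∀ z ∈ S, (match z with
      | .and _ _ => false
      | .neg (.or a c) => decide (neg a ∈ S ∧ neg c ∈ S ∧
          ((neg a ∈ D ∨ neg c ∈ D) → neg (.or a c) ∈ D))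
      | .neg (.neg a) => decide (a = fM)
      | .imp a c => decide (a ∈ S → c ∈ S ∧ c ∉ D ∧ c ≠ .or p r ∧ c ≠ .or q s)
      | .neg (.imp a c) => decide (a ∈ S ∧ neg c ∈ S ∧
          ((a ∈ D ∨ neg c ∈ D) → neg (imp a c) ∈ D))
      | _ => true) = true) (h2 : fM ∈ S) (h3 : fM ∉ D) : Closed S D := by
  refine ⟨fun a c h => ?_, fun a c h => ?_, fun a h => ?_, h2, h3, fun a c ha h => ?_,
    fun a c h => ?_⟩
  · simpa using h1 _ h
  · exact of_decide_eq_true (h1 _ h)
  · exact of_decide_eq_true (h1 _ h)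
  · exact of_decide_eq_true (h1 _ h) ha
  · exact of_decide_eq_true (h1 _ h)

lemma cX : Closed SX DX := closed_of _ _ (by decide) (by decide) (by decide)
lemma cY : Closed SY DY := closed_of _ _ (by decide) (by decide) (by decide)
lemma c0X : Closed S0 DX := closed_of _ _ (by decide) (by decide) (by decide)
lemma c0Y : Closed S0 DY := closed_of _ _ (by decide) (by decide) (by decide)

lemma fork_cases {S D : List Fm} {b : Branch} (hb : Inv S D b) (hS : ∀ z ∈ S, (match z with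
      | .neg (.and _ _) => false
      | .or a c => decide ((a = p ∧ c = r) ∨ (a = q ∧ c = s))
      | _ => true) = true) {x y : Node} (h : Fork b x y) :
    ∃ i, (At b i (.or p r) ∧ x = ⟨p, [i], none⟩ ∧ y = ⟨r, [i], none⟩) ∨
      (At b i (.or q s) ∧ x = ⟨q, [i], none⟩ ∧ y = ⟨s, [i], none⟩) := by
  cases h with
  | nconj i a c h => simpa using hS _ (h.mem hb)
  | disj i a c h =>
    rcases of_decide_eq_true (hS _ (h.mem hb)) with ⟨rfl, rfl⟩ | ⟨rfl, rfl⟩
    · exact ⟨i, Or.inl ⟨h, rfl, rfl⟩⟩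
    · exact ⟨i, Or.inr ⟨h, rfl, rfl⟩⟩

lemma add_one {S D : List Fm} {b : Branch} (hb : Inv S D b) (i : ℕ) (a e : Fm) (h : At b i e)
    (h1 : a ∈ S) (h2 : a ≠ .or p r) (h3 : a ≠ .or q s) (h4 : a ∈ D → e ∈ D) :
    Inv S D (b ++ [⟨a, [i], none⟩]) := by
  apply hb.app
  intro x hx
  simp only [List.mem_cons, List.not_mem_nil, or_false] at hx
  subst hx
  exact ⟨h1, by simp [h2, h3], fun hD k hk => ⟨e, h4 hD, by simp at hk; rwa [hk]⟩⟩

lemma leaf_no {S D : List Fm} {b : Branch} (hb : Inv S D b)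
    (hS : ∀ z ∈ S, neg z ∈ S → z ∈ D ∧ neg z ∈ D) (e : Fm) (he : e = .or p r ∨ e = .or q s)
    (heD : e ∉ D) (hi : ∃ i, At b i e) : ¬ StrongParity b := by
  rintro ⟨i, j, z, h1, h2, h3⟩
  obtain ⟨k, x, hx, rfl⟩ := hi
  obtain ⟨hz1, hz2⟩ := hS z (h1.mem hb) (h2.mem hb)
  obtain ⟨d, hd⟩ := Option.ne_none_iff_exists'.1 ((hb x (List.mem_of_getElem? hx)).2.1 he)
  rcases (h3 k d ⟨x, hx, hd⟩).1 with h | h
  · obtain ⟨a, ha, hk⟩ := tr_D hb h ⟨z, hz1, h1⟩
    exact heD (At.uniq hk ⟨x, hx, rfl⟩ ▸ ha)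
  · obtain ⟨a, ha, hk⟩ := tr_D hb h ⟨_, hz2, h2⟩
    exact heD (At.uniq hk ⟨x, hx, rfl⟩ ▸ ha)

lemma noX {b : Branch} (h : Grows StrongParity b) (hb : Inv SX DX b)
    (hi : ∃ i, At b i (.or p r)) : False := by
  induction h with
  | leaf b h => exact leaf_no hb (by decide) _ (Or.inl rfl) (by decide) hi h
  | step b new hs _ ih => exact ih (step_inv cX hb hs) (hi.imp fun i h => h.app _)
  | fork b x y hf _ _ ih1 ih2 =>
    obtain ⟨i, ⟨h, rfl, rfl⟩ | ⟨h, rfl, rfl⟩⟩ := fork_cases hb (by decide) hf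
    · exact ih2 (add_one hb i _ _ h (by decide) (by decide) (by decide) (by decide))
        (hi.imp fun i h => h.app _)
    · exact ih1 (add_one hb i _ _ h (by decide) (by decide) (by decide) (by decide))
        (hi.imp fun i h => h.app _)

lemma noY {b : Branch} (h : Grows StrongParity b) (hb : Inv SY DY b)
    (hi : ∃ i, At b i (.or q s)) : False := by
  induction h with
  | leaf b h => exact leaf_no hb (by decide) _ (Or.inr rfl) (by decide) hi h
  | step b new hs _ ih => exact ih (step_inv cY hb hs) (hi.imp fun i h => h.app _)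
  | fork b x y hf _ _ ih1 ih2 =>
    obtain ⟨i, ⟨h, rfl, rfl⟩ | ⟨h, rfl, rfl⟩⟩ := fork_cases hb (by decide) hf
    · exact ih1 (add_one hb i _ _ h (by decide) (by decide) (by decide) (by decide))
        (hi.imp fun i h => h.app _)
    · exact ih2 (add_one hb i _ _ h (by decide) (by decide) (by decide) (by decide))
        (hi.imp fun i h => h.app _)

lemma no0 {b : Branch} (h : Grows StrongParity b) (hX : Inv S0 DX b) (hY : Inv S0 DY b) :
    False := by
  induction h with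
  | leaf b h =>
    obtain ⟨i, j, z, h1, h2, _⟩ := h
    exact (by decide : ∀ z ∈ S0, neg z ∉ S0) z (h1.mem hX) (h2.mem hX)
  | step b new hs _ ih => exact ih (step_inv c0X hX hs) (step_inv c0Y hY hs)
  | fork b x y hf g1 g2 _ _ =>
    obtain ⟨i, ⟨h, rfl, rfl⟩ | ⟨h, rfl, rfl⟩⟩ := fork_cases hX (by decide) hf
    · exact noX g2 (add_one (hX.mono (by decide)) i _ _ h (by decide) (by decide) (by decide)
        (by decide)) ⟨i, h.app _⟩
    · exact noY g2 (add_one (hY.mono (by decide)) i _ _ h (by decide) (by decide) (by decide)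
        (by decide)) ⟨i, h.app _⟩

lemma not_DAs : phi ∉ DAs := by
  intro h
  refine no0 h ?_ ?_ <;>
  · intro x hx
    simp only [List.mem_cons, List.not_mem_nil, or_false] at hx
    subst hx
    exact ⟨by decide, by decide, fun _ k hk => by simp at hk⟩

def prems (b : Branch) (m : ℕ) : List ℕ := ((b[m]?).map Node.prem).getD []

lemma tr_sub {b : Branch} {n k : ℕ} (K : List ℕ) (hK : ∀ m ∈ K, ∀ k ∈ prems b m, k ∈ K)
    (hn : n ∈ K) (h : Tr b n k) : k ∈ K := by
  induction h with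
  | refl => exact hn
  | step m x k _ hx hk ih => exact hK m ih k (by simp [prems, hx, hk])

lemma tr_step {b : Branch} {n m : ℕ} (k : ℕ) (h : Tr b n m) (hk : k ∈ prems b m) : Tr b n k := by
  unfold prems at hk
  rcases e : b[m]? with _ | x
  · simp [e] at hk
  · exact Tr.step m x k h e (by simpa [e] using hk)

lemma crit_cases {b : Branch} (L : List (ℕ × ℕ))
    (hL : ∀ c < b.length, ∀ d ∈ (b[c]?).bind Node.partner, (c, d) ∈ L) {c d : ℕ}
    (h : Crit b c d) : (c, d) ∈ L := by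
  obtain ⟨x, hx, e⟩ := h
  have hi : c < b.length := by
    by_contra hn
    rw [List.getElem?_eq_none (by omega)] at hx
    simp at hx
  exact hL c hi d (by simp [hx, e])

def b0 : Branch := [⟨neg phi, [], none⟩, ⟨neg fA, [0], none⟩, ⟨neg (.or fB (neg fM)), [0], none⟩,
  ⟨neg fB, [2], none⟩, ⟨neg (neg fM), [2], none⟩, ⟨fM, [4], none⟩,
  ⟨.or p r, [1], some 7⟩, ⟨neg p, [1], some 6⟩]
def b1 : Branch := b0 ++ [⟨r, [6], none⟩, ⟨imp (neg p) (imp s q), [8, 5], none⟩,
  ⟨imp s q, [7, 9], none⟩, ⟨.or q s, [3], some 12⟩, ⟨neg q, [3], some 11⟩]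

lemma leaf1 : Parity (b0 ++ [⟨p, [6], none⟩]) := by
  refine ⟨8, 7, p, ⟨_, rfl, rfl⟩, ⟨_, rfl, rfl⟩, fun c d h => ?_⟩
  have t6 : Tr (b0 ++ [⟨p, [6], none⟩]) 8 6 := tr_step 6 .refl (by decide)
  have := crit_cases [(6, 7), (7, 6)] (by decide) h
  simp only [List.mem_cons, Prod.mk.injEq, List.not_mem_nil, or_false] at this
  rcases this with ⟨rfl, rfl⟩ | ⟨rfl, rfl⟩
  · exact iff_of_true (Or.inl t6) (Or.inr .refl)
  · exact iff_of_true (Or.inr .refl) (Or.inl t6)

lemma leaf2 : Parity (b1 ++ [⟨q, [11], none⟩]) := by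
  refine ⟨13, 12, q, ⟨_, rfl, rfl⟩, ⟨_, rfl, rfl⟩, fun c d h => ?_⟩
  have t : Tr (b1 ++ [⟨q, [11], none⟩]) 13 11 := tr_step 11 .refl (by decide)
  have hK : ∀ k, (Tr (b1 ++ [⟨q, [11], none⟩]) 13 k ∨ Tr (b1 ++ [⟨q, [11], none⟩]) 12 k) →
      k ∈ [13, 12, 11, 3, 2, 0] := by
    rintro k (h | h)
    · exact tr_sub _ (by decide) (by decide) h
    · exact tr_sub _ (by decide) (by decide) h
  have := crit_cases [(6, 7), (7, 6), (11, 12), (12, 11)] (by decide) h
  simp only [List.mem_cons, Prod.mk.injEq, List.not_mem_nil, or_false] at this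
  rcases this with ⟨rfl, rfl⟩ | ⟨rfl, rfl⟩ | ⟨rfl, rfl⟩ | ⟨rfl, rfl⟩
  · exact iff_of_false (fun h => absurd (hK _ h) (by decide)) (fun h => absurd (hK _ h) (by decide))
  · exact iff_of_false (fun h => absurd (hK _ h) (by decide)) (fun h => absurd (hK _ h) (by decide))
  · exact iff_of_true (Or.inl t) (Or.inr .refl)
  · exact iff_of_true (Or.inr .refl) (Or.inl t)

def b2 : Branch := b1 ++ [⟨s, [11], none⟩, ⟨q, [13, 10], none⟩]

lemma leaf3 : Parity b2 := by
  refine ⟨14, 12, q, ⟨_, rfl, rfl⟩, ⟨_, rfl, rfl⟩, fun c d h => ?_⟩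
  have t11 : Tr b2 14 11 := tr_step 11 (tr_step 13 .refl (by decide)) (by decide)
  have t10 : Tr b2 14 10 := tr_step 10 .refl (by decide)
  have t7 : Tr b2 14 7 := tr_step 7 t10 (by decide)
  have t6 : Tr b2 14 6 :=
    tr_step 6 (tr_step 8 (tr_step 9 t10 (by decide)) (by decide)) (by decide)
  have := crit_cases [(6, 7), (7, 6), (11, 12), (12, 11)] (by decide) h
  simp only [List.mem_cons, Prod.mk.injEq, List.not_mem_nil, or_false] at this
  rcases this with ⟨rfl, rfl⟩ | ⟨rfl, rfl⟩ | ⟨rfl, rfl⟩ | ⟨rfl, rfl⟩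
  · exact iff_of_true (Or.inl t6) (Or.inl t7)
  · exact iff_of_true (Or.inl t7) (Or.inl t6)
  · exact iff_of_true (Or.inl t11) (Or.inr .refl)
  · exact iff_of_true (Or.inr .refl) (Or.inl t11)

lemma mem_DA : phi ∈ DA := by
  show Grows Parity _
  refine .step _ _ (.ndisj 0 fA (.or fB (neg fM)) ⟨_, rfl, rfl⟩) ?_
  refine .step _ _ (.ndisj 2 fB (neg fM) ⟨_, rfl, rfl⟩) ?_
  refine .step _ _ (.dneg 4 fM ⟨_, rfl, rfl⟩) ?_
  refine .step _ _ (.counter 1 (.or p r) p ⟨_, rfl, rfl⟩) ?_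
  refine .fork _ _ _ (.disj 6 p r ⟨_, rfl, rfl⟩) (.leaf _ leaf1) ?_
  refine .step _ _ (.mp 8 5 r (imp (neg p) (imp s q)) ⟨_, rfl, rfl⟩ ⟨_, rfl, rfl⟩) ?_
  refine .step _ _ (.mp 7 9 (neg p) (imp s q) ⟨_, rfl, rfl⟩ ⟨_, rfl, rfl⟩) ?_
  refine .step _ _ (.counter 3 (.or q s) q ⟨_, rfl, rfl⟩) ?_
  refine .fork _ _ _ (.disj 11 q s ⟨_, rfl, rfl⟩) (.leaf _ leaf2) ?_
  refine .step _ _ (.mp 13 10 s q ⟨_, rfl, rfl⟩ ⟨_, rfl, rfl⟩) ?_
  exact .leaf _ leaf3

theorem result : (phi ∈ DA ∧ phi ∉ DAs) ∧ DAs ≠ DA :=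
  ⟨⟨mem_DA, not_DAs⟩, fun h => not_DAs (h ▸ mem_DA)⟩

end Pool.Agent.Results.MP_b8bcd1_lc.Q2
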